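import Pool.Agent.H12.MIC.Tms
import Pool.Agent.H82.KSP.MAJ

/-!
# A variable which is known from several copies and carries little information

`C` is a variable, `X` a variable which carries little information on `C` given `B`. If `C` is
nearly determined, given `B`, by several copies of `X` which are independent given `(C, B)`, then
`C` has small entropy given `B`.
-/

set_option autoImplicit false

namespace Pool.H52.TIE

open Finset
open Pool.Agent.H49.Ent Pool.Agent.H32.Dense Pool.STK
open Pool.BFL (Pb)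
open Pool.K2S (cpn)
open Pool.CLU (cpn_law cpn_pos cpn_marg)
open Pool.MIC (CH_prop_le CH_swc CH_swl Pb_nonneg)

variable {Ω S T U : Type} [Fintype Ω]

/-- Marginals of conditional entropies. -/
theorem CH_cpn {p : Ω → ℝ} (hp : IsLaw p) {Λ : Type} (L : Ω → Λ) (m : ℕ) (i : Fin (m + 1))
    (X : Ω → S) (B : Ω → T) : CH (cpn p L m) (fun w => X (w i)) (fun w => B (w i)) =
      CH p X B := by
  unfold CH
  rw [(cpn_marg hp.nonneg L m i).H (fun ω => (X ω, B ω)), (cpn_marg hp.nonneg L m i).H B]

/-- The label of a copy. -/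
theorem CH_cpn_zero {p : Ω → ℝ} (hp : IsLaw p) {Λ : Type} (L : Ω → Λ) (m : ℕ) (i : Fin (m + 1))
    (X : Ω → S) (B : Ω → T) (hB : Det p L B) :
    CH (cpn p L m) (fun w => X (w i)) (fun w => B (w 0)) = CH p X B := by
  rw [← CH_cpn hp L m i X B]
  refine CH_congr (cpn_law hp L m).nonneg (fun w w' a b e => ?_) (fun w w' a b e => ?_)
    (fun w w' a b e => ?_) (fun w w' a b e => ?_)
  all_goals
    have h1 := cpn_pos hp.nonneg L m w a
    have h2 := cpn_pos hp.nonneg L m w' b
    have h3 : B (w i) = B (w 0) := hB _ _ (h1.1 i) (h1.1 0) (h1.2 i)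
    have h4 : B (w' i) = B (w' 0) := hB _ _ (h2.1 i) (h2.1 0) (h2.2 i)
    simp only [h3, h4] at e ⊢
    first | exact e | (exact (Prod.ext_iff.1 e).1)

/-- **Few copies.** The entropy of `C` given `B` is at most the information of the copies and the
entropy of `C` given the copies. -/
theorem few_copies {p : Ω → ℝ} (hp : IsLaw p) (C : Ω → S) (X : Ω → T) (B : Ω → U) (m : ℕ) :
    CH p C B ≤ (m + 1) * (CH p X B - CH p X (fun ω => (C ω, B ω))) +
      CH (cpn p (fun ω => (C ω, B ω)) m) (fun w => C (w 0))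
        (fun w => ((fun i => X (w i)), B (w 0))) := by
  classical
  obtain ⟨L, hL⟩ : ∃ L : Ω → S × U, L = fun ω => (C ω, B ω) := ⟨_, rfl⟩
  have hBL : Det p L B := by
    rw [hL]
    exact fun _ _ _ _ e => (Prod.ext_iff.1 e).2
  have hq := cpn_law hp L m
  have h1 := CH_chain hq.nonneg (fun w => C (w 0)) (fun w => fun i => X (w i))
    (fun w => B (w 0))
  have h2 := CH_chain hq.nonneg (fun w => fun i => X (w i)) (fun w => C (w 0))
    (fun w => B (w 0))
  have h3 : CH (cpn p L m) (fun w => (C (w 0), fun i => X (w i))) (fun w => B (w 0)) =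
      CH (cpn p L m) (fun w => ((fun i => X (w i)), C (w 0))) (fun w => B (w 0)) :=
    CH_swl hq.nonneg _ _ _
  have h4 : CH (cpn p L m) (fun w => C (w 0)) (fun w => B (w 0)) = CH p C B :=
    CH_cpn hp L m 0 C B
  have h5 : CH (cpn p L m) (fun w => fun i => X (w i)) (fun w => (C (w 0), B (w 0))) =
      (m + 1) * CH p X (fun ω => (C ω, B ω)) := by
    have h := Pool.TMS.cpn_times hp L X m
    rw [hL] at h ⊢
    exact h
  have h6 : CH (cpn p L m) (fun w => fun i => X (w i)) (fun w => B (w 0)) ≤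
      (m + 1) * CH p X B := by
    refine (Pool.KS3.CH_pi_le hq.nonneg (fun w : Fin (m + 1) → Ω => fun i => X (w i))
      (fun w => B (w 0))).trans ?_
    rw [Finset.sum_congr rfl fun i _ => CH_cpn_zero hp L m i X B hBL, Finset.sum_const,
      Finset.card_univ, Fintype.card_fin, nsmul_eq_mul]
    push_cast
    exact le_rfl
  rw [← hL]
  rw [hL] at h5 ⊢
  rw [← hL] at h5 ⊢
  linarith

/-- Entropy of a variable which has few values on an event, and not too many values
everywhere. -/
theorem CH_le_two {p : Ω → ℝ} (hp : IsLaw p) (C : Ω → S) (W : Ω → T) (E : Ω → Prop)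
    (F F₀ : T → Finset S) {K N : ℕ} (hF : ∀ ω, 0 < p ω → E ω → C ω ∈ F (W ω))
    (hK : ∀ v, (F v).card ≤ K) (hF₀ : ∀ ω, 0 < p ω → C ω ∈ F₀ (W ω)) (hN : ∀ v, (F₀ v).card ≤ N)
    (hK1 : 1 ≤ K) (hN1 : 1 ≤ N) :
    CH p C W ≤ Real.log 2 + Real.log K + Pb p (fun ω => ¬ E ω) * Real.log N := by
  classical
  have h1 := CH_le_add hp.nonneg C E W
  have h2 := CH_prop_le hp.nonneg hp.sum_one E W
  have h3 := CH_le_card hp.nonneg hp.sum_one C (fun ω => (E ω, W ω))
    (fun v => if v.1 then F v.2 else F₀ v.2) (fun ω hω => by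
      by_cases h : E ω
      · simp only [h, if_true]
        exact hF ω hω h
      · simp only [h, if_false]
        exact hF₀ ω hω)
  have hK0 : (0 : ℝ) ≤ Real.log K := Real.log_nonneg (by exact_mod_cast hK1)
  have hN0 : (0 : ℝ) ≤ Real.log N := Real.log_nonneg (by exact_mod_cast hN1)
  have h4 : Ex p (fun ω => Real.log (((if E ω then F (W ω) else F₀ (W ω)) : Finset S).card)) ≤
      Real.log K + Pb p (fun ω => ¬ E ω) * Real.log N := by
    have h5 : ∀ ω, 0 < p ω → Real.log (((if E ω then F (W ω) else F₀ (W ω)) : Finset S).card) ≤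
        Real.log K + (if ¬ E ω then 1 else 0) * Real.log N := by
      intro ω hω
      by_cases h : E ω
      · simp only [h, if_true, not_true_eq_false, if_false, zero_mul, add_zero]
        have h6 : 0 < (F (W ω)).card := Finset.card_pos.2 ⟨_, hF ω hω h⟩
        exact Real.log_le_log (by exact_mod_cast h6) (by exact_mod_cast hK _)
      · simp only [h, if_false, not_false_eq_true, if_true, one_mul]
        have h6 : 0 < (F₀ (W ω)).card := Finset.card_pos.2 ⟨_, hF₀ ω hω⟩
        have h7 := Real.log_le_log (by exact_mod_cast h6 : (0 : ℝ) < ((F₀ (W ω)).card : ℝ))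
          (by exact_mod_cast hN (W ω) : ((F₀ (W ω)).card : ℝ) ≤ N)
        linarith
    refine (Ex_mono hp.nonneg h5).trans (le_of_eq ?_)
    unfold Ex Pb
    have h6 : ∀ ω, p ω * (Real.log K + (if ¬ E ω then 1 else 0) * Real.log N) =
        p ω * Real.log K + (if ¬ E ω then p ω else 0) * Real.log N := by
      intro ω
      split_ifs <;> ring
    rw [Finset.sum_congr rfl fun ω _ => h6 ω, Finset.sum_add_distrib, ← Finset.sum_mul,
      ← Finset.sum_mul, hp.sum_one, one_mul]
    congr 2
    exact Finset.sum_congr rfl fun ω _ => by by_cases h : E ω <;> simp [h]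
  linarith

/-- **Few copies, with an exceptional event.** `C` has at most `K` values given the copies, on
the event `E`, and at most `N` values everywhere. -/
theorem few_copies_ev {p : Ω → ℝ} (hp : IsLaw p) (C : Ω → S) (X : Ω → T) (B : Ω → U) (m : ℕ)
    (E : (Fin (m + 1) → Ω) → Prop) (F : (Fin (m + 1) → T) × U → Finset S) (F₀ : U → Finset S)
    {K N : ℕ} {κ : ℝ} (hκ : CH p X B ≤ CH p X (fun ω => (C ω, B ω)) + κ)
    (hF : ∀ w, (∀ i, 0 < p (w i)) → (∀ i, C (w i) = C (w 0)) → (∀ i, B (w i) = B (w 0)) → E w →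
      C (w 0) ∈ F ((fun i => X (w i)), B (w 0)))
    (hK : ∀ v, (F v).card ≤ K) (hF₀ : ∀ ω, 0 < p ω → C ω ∈ F₀ (B ω))
    (hN : ∀ u, (F₀ u).card ≤ N) (hK1 : 1 ≤ K) (hN1 : 1 ≤ N) :
    CH p C B ≤ (m + 1) * κ + (Real.log 2 + Real.log K +
      Pb (cpn p (fun ω => (C ω, B ω)) m) (fun w => ¬ E w) * Real.log N) := by
  classical
  have h1 := few_copies hp C X B m
  have h2 := CH_le_two (cpn_law hp (fun ω => (C ω, B ω)) m) (fun w => C (w 0))
    (fun w => ((fun i => X (w i)), B (w 0))) E F (fun v => F₀ v.2) (K := K) (N := N)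
    (fun w hw he => by
      have h3 := cpn_pos hp.nonneg _ m w hw
      refine hF w h3.1 (fun i => ?_) (fun i => ?_) he
      · exact (Prod.ext_iff.1 (h3.2 i)).1
      · exact (Prod.ext_iff.1 (h3.2 i)).2)
    hK (fun w hw => hF₀ _ ((cpn_pos hp.nonneg _ m w hw).1 0)) (fun v => hN v.2) hK1 hN1
  have h3 : ((m : ℝ) + 1) * (CH p X B - CH p X (fun ω => (C ω, B ω))) ≤ (m + 1) * κ :=
    mul_le_mul_of_nonneg_left (by linarith) (by positivity)
  linarith

end Pool.H52.TIE
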